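import Mathlib

set_option autoImplicit false

open Filter Topology

namespace Pool.Agent.Results.MP_c7ee41_nt.SublinearRatio

lemma per {f : ℕ → ℤ} {p : ℕ}
    (h : ∀ n, 0 < n → ¬ p ∣ n → f (n + p) ≡ f n [ZMOD (p : ℤ)]) :
    ∀ a b, 0 < a → 0 < b → ¬ p ∣ a → a ≡ b [MOD p] → f a ≡ f b [ZMOD (p : ℤ)] := by
  have key : ∀ a t, 0 < a → ¬ p ∣ a → f (a + p * t) ≡ f a [ZMOD (p : ℤ)] := by
    intro a t ha hpa
    induction t with
    | zero => simp
    | succ t ih =>
      have h1 := h (a + p * t) (by omega)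
        (by intro hd; exact hpa ((Nat.dvd_add_left (Dvd.intro _ rfl)).1 hd))
      have e : a + p * (t + 1) = a + p * t + p := by ring
      rw [e]
      exact h1.trans ih
  intro a b ha hb hpa hab
  rcases le_total a b with hle | hle
  · obtain ⟨t, ht⟩ := (Nat.modEq_iff_dvd' hle).1 hab
    have e : b = a + p * t := by omega
    rw [e]; exact (key a t ha hpa).symm
  · obtain ⟨t, ht⟩ := (Nat.modEq_iff_dvd' hle).1 hab.symm
    have e : a = b + p * t := by omega
    have hpb : ¬ p ∣ b := by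
      intro hd; apply hpa; rw [e]; exact dvd_add hd (Dvd.intro _ rfl)
    rw [e]; exact key b t hb hpb

lemma mulmod {f : ℕ → ℤ} {p : ℕ} (hp : p.Prime)
    (hm : ∀ m n, 0 < m → 0 < n → Nat.Coprime m n → f (m * n) = f m * f n)
    (h : ∀ n, 0 < n → ¬ p ∣ n → f (n + p) ≡ f n [ZMOD (p : ℤ)])
    (m n : ℕ) (hm0 : 0 < m) (hn0 : 0 < n) (hpm : ¬ p ∣ m) (hpn : ¬ p ∣ n) :
    f (m * n) ≡ f m * f n [ZMOD (p : ℤ)] := by
  obtain ⟨q, hq, hqp, hqn⟩ := Nat.forall_exists_prime_gt_and_modEq m hp.ne_zero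
    ((hp.coprime_iff_not_dvd.2 hpn).symm)
  have hc : Nat.Coprime m q := by
    rw [Nat.coprime_comm]
    exact (hqp.coprime_iff_not_dvd).2 (fun hd => absurd (Nat.le_of_dvd hm0 hd) (by omega))
  have hpmn : ¬ p ∣ m * n := by
    intro hd
    rcases (hp.dvd_mul).1 hd with h1 | h1
    · exact hpm h1
    · exact hpn h1
  have e1 : f (m * n) ≡ f (m * q) [ZMOD (p : ℤ)] :=
    per h _ _ (Nat.mul_pos hm0 hn0) (Nat.mul_pos hm0 hqp.pos) hpmn
      (Nat.ModEq.mul_left m hqn.symm)
  have e2 : f n ≡ f q [ZMOD (p : ℤ)] := per h _ _ hn0 hqp.pos hpn hqn.symm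
  rw [hm m q hm0 hqp.pos hc] at e1
  exact e1.trans ((Int.ModEq.refl _).mul e2.symm)

/-- if `p ∣ x - y` and `|x|, |y|` are small then `x = y` -/
lemma eq_of_small {x y : ℤ} {p : ℕ} (h : x ≡ y [ZMOD (p : ℤ)]) (hs : |x| + |y| < p) : x = y := by
  have hd : (p : ℤ) ∣ x - y := (Int.modEq_iff_dvd.1 h.symm)
  have h0 : x - y = 0 := by
    apply Int.eq_zero_of_abs_lt_dvd hd
    calc |x - y| ≤ |x| + |y| := abs_sub _ _
      _ < p := hs
  linarith

lemma core {f : ℕ → ℤ} (h1 : f 1 = 1)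
    (hm : ∀ m n, 0 < m → 0 < n → Nat.Coprime m n → f (m * n) = f m * f n)
    {P : Set ℕ} (hP : P.Infinite)
    (hPp : ∀ p ∈ P, p.Prime ∧ ∀ n, 0 < n → ¬ p ∣ n → f (n + p) ≡ f n [ZMOD (p : ℤ)])
    (hs : ∀ C : ℕ, ∃ N : ℕ, ∀ n ≥ N, (C : ℤ) * |f n| ≤ n) :
    ∀ n, 0 < n → f n = 1 := by
  have hpm : ∀ n, 0 < n → f n = 1 ∨ f n = -1 := by
    intro n hn
    set C : ℕ := (f n).natAbs + 2 with hC
    obtain ⟨N, hN⟩ := hs C
    set B : ℕ := (Finset.range N).sup (fun r => (f r).natAbs) with hB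
    obtain ⟨p, hpP, hpbig⟩ := hP.exists_gt (N + n + C * B + 2)
    obtain ⟨hp, hper⟩ := hPp p hpP
    have hsmall : ∀ r, r < p → (C : ℤ) * |f r| < p := by
      intro r hr
      by_cases hrN : N ≤ r
      · have := hN r hrN
        have h2 : (r : ℤ) < p := by exact_mod_cast hr
        linarith
      · have h3 : (f r).natAbs ≤ B := by
          rw [hB]
          exact Finset.le_sup (f := fun r => (f r).natAbs) (Finset.mem_range.2 (by omega))
        have h4 : C * (f r).natAbs < p := by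
          have := Nat.mul_le_mul_left C h3
          omega
        have h5 : ((C * (f r).natAbs : ℕ) : ℤ) < p := by exact_mod_cast h4
        rw [Nat.cast_mul, Int.natCast_natAbs] at h5
        exact h5
    have hCabs : (C : ℤ) = |f n| + 2 := by
      rw [hC]; push_cast; rfl
    have hpn : ¬ p ∣ n := fun hd => absurd (Nat.le_of_dvd hn hd) (by omega)
    have hpow : ∀ j, f (n ^ j % p) = (f n) ^ j := by
      intro j
      induction j with
      | zero =>
        rw [pow_zero, pow_zero, Nat.mod_eq_of_lt hp.one_lt, h1]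
      | succ j ih =>
        have hnj : ¬ p ∣ n ^ j % p := by
          intro hd
          have : p ∣ n ^ j := (Nat.dvd_mod_iff (dvd_refl p)).1 hd
          exact hpn (hp.dvd_of_dvd_pow this)
        have hnj' : ¬ p ∣ n ^ (j + 1) % p := by
          intro hd
          have : p ∣ n ^ (j + 1) := (Nat.dvd_mod_iff (dvd_refl p)).1 hd
          exact hpn (hp.dvd_of_dvd_pow this)
        have hpos : 0 < n ^ j % p := Nat.pos_of_ne_zero (fun h0 => hnj (by rw [h0]; exact dvd_zero _))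
        have hpos' : 0 < n ^ (j + 1) % p :=
          Nat.pos_of_ne_zero (fun h0 => hnj' (by rw [h0]; exact dvd_zero _))
        have e1 : n ^ (j + 1) % p ≡ n * (n ^ j % p) [MOD p] := by
          refine (Nat.mod_modEq _ _).trans ?_
          rw [pow_succ, mul_comm]
          exact Nat.ModEq.mul_left n (Nat.mod_modEq _ _).symm
        have e2 : f (n ^ (j + 1) % p) ≡ f (n * (n ^ j % p)) [ZMOD (p : ℤ)] :=
          per hper _ _ hpos' (Nat.mul_pos hn hpos) hnj' e1
        have e3 := e2.trans (mulmod hp hm hper n (n ^ j % p) hn hpos hpn hnj)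
        have s1 := hsmall _ (Nat.mod_lt (n ^ (j + 1)) hp.pos)
        have s2 := hsmall _ (Nat.mod_lt (n ^ j) hp.pos)
        have e4 : f (n ^ (j + 1) % p) = f n * f (n ^ j % p) := by
          apply eq_of_small e3
          rw [abs_mul]
          rw [hCabs] at s1 s2
          have a1 : 0 ≤ |f (n ^ (j + 1) % p)| := abs_nonneg _
          have a2 : 0 ≤ |f (n ^ j % p)| := abs_nonneg _
          have a3 : 0 ≤ |f n| := abs_nonneg _
          rcases le_total |f (n ^ (j + 1) % p)| |f (n ^ j % p)| with hl | hl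
          · nlinarith
          · nlinarith
        rw [e4, ih, pow_succ, mul_comm]
    have hcop : Nat.Coprime n p := (hp.coprime_iff_not_dvd.2 hpn).symm
    have hf := hpow (Nat.totient p)
    have hmod : n ^ Nat.totient p % p = 1 := by
      have := Nat.ModEq.pow_totient hcop
      rw [Nat.ModEq, Nat.mod_eq_of_lt hp.one_lt] at this
      exact this
    rw [hmod, h1] at hf
    have hu : IsUnit (f n) :=
      IsUnit.of_pow_eq_one hf.symm (Nat.totient_pos.2 hp.pos).ne'
    exact Int.isUnit_iff.1 hu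
  intro n hn
  rcases hpm n hn with h | h
  · exact h
  exfalso
  obtain ⟨p, hpP, hpbig⟩ := hP.exists_gt (n + 2)
  obtain ⟨p', hpP', hpbig'⟩ := hP.exists_gt p
  obtain ⟨hp, hper⟩ := hPp p hpP
  obtain ⟨hp', hper'⟩ := hPp p' hpP'
  have hcop : Nat.Coprime p p' := (Nat.coprime_primes hp hp').2 (by omega)
  obtain ⟨m, hm1, hm2⟩ := Nat.chineseRemainder hcop n 1
  have hpn : ¬ p ∣ n := fun hd => absurd (Nat.le_of_dvd hn hd) (by omega)
  have hp1 : ¬ p' ∣ 1 := fun hd => absurd (Nat.le_of_dvd one_pos hd) (by omega)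
  have hm0 : 0 < m := by
    rcases Nat.eq_zero_or_pos m with h0 | h0
    · exfalso
      rw [h0] at hm2
      exact hp1 ((Nat.modEq_zero_iff_dvd).1 hm2.symm)
    · exact h0
  have c1 := per hper n m hn hm0 hpn hm1.symm
  have c2 := per hper' 1 m one_pos hm0 hp1 hm2.symm
  rw [h] at c1
  rw [h1] at c2
  have b1 : (2 : ℤ) < p := by exact_mod_cast (by omega : 2 < p)
  have b2 : (2 : ℤ) < p' := by exact_mod_cast (by omega : 2 < p')
  rcases hpm m hm0 with hh | hh
  · rw [hh] at c1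
    have := eq_of_small c1 (by norm_num; linarith)
    norm_num at this
  · rw [hh] at c2
    have := eq_of_small c2 (by norm_num; linarith)
    norm_num at this

/-- Let `F` be an integer valued multiplicative function with `F (n + ℓ) ≡ F n (mod ℓ)` for all
`n ≥ 1`, for infinitely many primes `ℓ`. If for some `K` the integer `n ^ K` divides `F n` for all
`n ≥ 1` and `F n = o(n ^ (K + 1))`, then `F n = n ^ K` for all `n ≥ 1`. -/
theorem result (F : ArithmeticFunction ℤ) (hF : F.IsMultiplicative)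
    (hS : Set.Infinite
      {ℓ : ℕ | ℓ.Prime ∧ ∀ n : ℕ, 0 < n → F (n + ℓ) ≡ F n [ZMOD (ℓ : ℤ)]})
    (K : ℕ) (hdiv : ∀ n : ℕ, 0 < n → (n : ℤ) ^ K ∣ F n)
    (hgrow : Tendsto (fun n : ℕ => (F n : ℝ) / (n : ℝ) ^ (K + 1)) atTop (𝓝 0)) :
    ∀ n : ℕ, 0 < n → F n = (n : ℤ) ^ K := by
  set f : ℕ → ℤ := fun n => F n / (n : ℤ) ^ K with hf
  have hFf : ∀ n, 0 < n → F n = (n : ℤ) ^ K * f n := fun n hn =>
    (Int.mul_ediv_cancel' (hdiv n hn)).symm
  have hpowne : ∀ n : ℕ, 0 < n → (n : ℤ) ^ K ≠ 0 := fun n hn =>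
    pow_ne_zero _ (by exact_mod_cast hn.ne')
  have h1 : f 1 = 1 := by
    rw [hf]; simp [hF.map_one]
  have hmul : ∀ m n, 0 < m → 0 < n → Nat.Coprime m n → f (m * n) = f m * f n := by
    intro m n hm hn hc
    have e := hF.map_mul_of_coprime hc
    rw [hFf _ (Nat.mul_pos hm hn), hFf m hm, hFf n hn] at e
    push_cast at e
    rw [mul_pow] at e
    have hne : (m : ℤ) ^ K * (n : ℤ) ^ K ≠ 0 := mul_ne_zero (hpowne m hm) (hpowne n hn)
    apply mul_left_cancel₀ hne
    rw [e]; ring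
  have hres := core (f := f) h1 hmul hS (by
    rintro p ⟨hp, hper⟩
    refine ⟨hp, fun n hn hpn => ?_⟩
    have e := hper n hn
    rw [hFf (n + p) (by omega), hFf n hn] at e
    have e2 : ((n + p : ℕ) : ℤ) ^ K ≡ (n : ℤ) ^ K [ZMOD (p : ℤ)] := by
      apply Int.ModEq.pow
      push_cast
      exact Int.add_modEq_right
    have e3 : (n : ℤ) ^ K * f (n + p) ≡ (n : ℤ) ^ K * f n [ZMOD (p : ℤ)] :=
      ((e2.mul_right _).symm).trans e
    have hd : (p : ℤ) ∣ (n : ℤ) ^ K * (f n - f (n + p)) := by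
      have := Int.modEq_iff_dvd.1 e3
      rw [← mul_sub] at this
      exact this
    have hpi : Prime (p : ℤ) := Nat.prime_iff_prime_int.1 hp
    rcases hpi.dvd_or_dvd hd with h2 | h2
    · exfalso
      have h3 := hpi.dvd_of_dvd_pow h2
      exact hpn (by exact_mod_cast h3)
    · exact Int.modEq_iff_dvd.2 h2) (by
    intro C
    have hC : (0 : ℝ) < 1 / ((C : ℝ) + 1) := by positivity
    have hev := (Metric.tendsto_atTop.1 hgrow) _ hC
    obtain ⟨N, hN⟩ := hev
    refine ⟨N + 1, fun n hn => ?_⟩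
    have hn0 : 0 < n := by omega
    have h2 := hN n (by omega)
    rw [Real.dist_eq, sub_zero, abs_div, abs_of_pos (by positivity : (0:ℝ) < (n : ℝ) ^ (K + 1)),
      div_lt_div_iff₀ (by positivity) (by positivity)] at h2
    rw [hFf n hn0] at h2
    push_cast at h2
    rw [abs_mul, abs_of_pos (by positivity : (0:ℝ) < (n : ℝ) ^ K), one_mul, pow_succ] at h2
    have hk : (0 : ℝ) < (n : ℝ) ^ K := by positivity
    have h3 : |(f n : ℝ)| * ((C : ℝ) + 1) < n := by
      have : (n : ℝ) ^ K * (|(f n : ℝ)| * ((C : ℝ) + 1)) < (n : ℝ) ^ K * n := by linarith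
      exact lt_of_mul_lt_mul_left this hk.le
    have h4 : (C : ℝ) * |(f n : ℝ)| ≤ n := by
      have := abs_nonneg (f n : ℝ)
      linarith
    exact_mod_cast h4)
  intro n hn
  rw [hFf n hn, hres n hn, mul_one]

end Pool.Agent.Results.MP_c7ee41_nt.SublinearRatio
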